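import Pool.Agent.Lib.MP_28303a_al.TW.Graph2

/-! # HIG: Higman's trick over polynomial rings -/

set_option autoImplicit false
set_option linter.unusedSectionVars false
set_option linter.unusedVariables false

namespace Pool.Agent.NegK.TW.H75

universe u v

open Matrix Polynomial

section

variable {E : Type u} [Ring E] {M : Type v} [AddCommGroup M] {ι : Type} [Fintype ι]
  [DecidableEq ι]

/-- Higman's trick for one matrix. -/
theorem hig_step (χ : Det1 E M) (α x y : Matrix ι ι E) (hα : IsUnit (α + x * y)) :
    IsUnit (fromBlocks α (-x) y 1) ∧ χ.val (fromBlocks α (-x) y 1) = χ.val (α + x * y) := by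
  have e : fromBlocks (α + x * y) 0 0 (1 : Matrix ι ι E) =
      fromBlocks 1 x 0 1 * (fromBlocks α (-x) y 1 * fromBlocks 1 0 (-y) 1) := by
    rw [Matrix.fromBlocks_multiply, Matrix.fromBlocks_multiply]
    simp
  have hu : IsUnit (fromBlocks α (-x) y 1) := by
    have h1 : IsUnit (fromBlocks (α + x * y) 0 0 (1 : Matrix ι ι E)) :=
      isUnit_blocks hα isUnit_one
    rw [e] at h1
    have h2 := (isUnit_upper (κ := ι) x).mul_left_iff.1 h1
    exact (isUnit_lower (ι := ι) (-y)).mul_right_iff.1 h2
  refine ⟨hu, ?_⟩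
  have a1 := congrArg χ.val e
  rw [χ.mul _ _ (isUnit_upper _) (hu.mul (isUnit_lower _)), χ.mul _ _ hu (isUnit_lower _),
    χ.upper, χ.lower, χ.val_blocks_one hα, zero_add, add_zero] at a1
  exact a1.symm

end

section

variable {B : Type u} [Ring B] {M : Type v} [AddCommGroup M]

/-- Reduction of the degree to `1`. -/
theorem hig_aux (χ : Det1 (Polynomial B) M) (D : ℕ) :
    ∀ (ι : Type) [Fintype ι] [DecidableEq ι] (β : Matrix ι ι (Polynomial B)), IsUnit β →
    (∀ i j, (β i j).natDegree ≤ D + 1) →
    ∃ (κ : Type) (_ : Fintype κ) (_ : DecidableEq κ) (A : Matrix κ κ (Polynomial B)),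
      IsUnit A ∧ (∀ i j, (A i j).natDegree ≤ 1) ∧ χ.val A = χ.val β := by
  induction D with
  | zero =>
    intro ι _ _ β hβ hdeg
    exact ⟨ι, inferInstance, inferInstance, β, hβ, hdeg, rfl⟩
  | succ D ih =>
    intro ι _ _ β hβ hdeg
    set x : Matrix ι ι (Polynomial B) := β.map (fun p => C (p.coeff (D + 2)) * X ^ (D + 1)) with hx
    set y : Matrix ι ι (Polynomial B) := Matrix.diagonal (fun _ => X) with hy
    have hxy : ∀ i j, (x * y) i j = C ((β i j).coeff (D + 2)) * X ^ (D + 2) := by
      intro i j
      rw [hy, Matrix.mul_diagonal, hx, Matrix.map_apply, mul_assoc, ← pow_succ]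
    have hα' : β - x * y + x * y = β := sub_add_cancel _ _
    obtain ⟨hu, hv⟩ := hig_step χ (β - x * y) x y (by rwa [hα'])
    rw [hα'] at hv
    obtain ⟨κ, f1, f2, A, hA, hA1, hA2⟩ := ih (ι ⊕ ι) _ hu (by
      rintro (i | i) (j | j)
      · show ((β - x * y) i j).natDegree ≤ D + 1
        rw [Matrix.sub_apply, hxy, natDegree_le_iff_coeff_eq_zero]
        intro n hn
        rw [coeff_sub, coeff_C_mul_X_pow]
        by_cases hn2 : n = D + 2
        · rw [if_pos hn2, hn2, sub_self]
        · rw [if_neg hn2, sub_zero]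
          exact coeff_eq_zero_of_natDegree_lt (lt_of_le_of_lt (hdeg i j) (by omega))
      · show ((-x) i j).natDegree ≤ D + 1
        rw [Matrix.neg_apply, natDegree_neg, hx, Matrix.map_apply]
        exact natDegree_C_mul_X_pow_le _ _
      · show (y i j).natDegree ≤ D + 1
        rw [hy]
        by_cases hij : i = j
        · subst hij
          rw [Matrix.diagonal_apply_eq]
          exact natDegree_X_le.trans (by omega)
        · rw [Matrix.diagonal_apply_ne _ hij, natDegree_zero]
          omega
      · show ((1 : Matrix ι ι (Polynomial B)) i j).natDegree ≤ D + 1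
        by_cases hij : i = j
        · subst hij
          rw [Matrix.one_apply_eq, natDegree_one]
          omega
        · rw [Matrix.one_apply_ne hij, natDegree_zero]
          omega)
    exact ⟨κ, f1, f2, A, hA, hA1, hA2.trans hv⟩

/-- The coefficients of the inverse of `1 + N X`. -/
theorem coeff_inv {κ : Type} [Fintype κ] [DecidableEq κ] {N : Matrix κ κ B}
    {V : Matrix κ κ (Polynomial B)} (h : (1 + N.map (fun b => C b * X)) * V = 1) (m : ℕ) :
    V.map (fun p => p.coeff m) = (-N) ^ m := by
  have h0 : V + N.map (fun b => C b * X) * V = 1 := by rwa [add_mul, one_mul] at h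
  induction m with
  | zero =>
    ext1 i j
    have h1 := congrArg (fun W : Matrix κ κ (Polynomial B) => (W i j).coeff 0) h0
    simp only [Matrix.add_apply, coeff_add] at h1
    have h2 : ((N.map (fun b => C b * X) * V : Matrix κ κ (Polynomial B)) i j).coeff 0 = 0 := by
      rw [Matrix.mul_apply, finsetSum_coeff]
      refine Finset.sum_eq_zero fun l _ => ?_
      rw [Matrix.map_apply, mul_assoc, coeff_C_mul, coeff_X_mul_zero, mul_zero]
    rw [h2, add_zero] at h1
    rw [Matrix.map_apply, h1, pow_zero]
    by_cases hij : i = j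
    · subst hij
      rw [Matrix.one_apply_eq, Matrix.one_apply_eq, coeff_one_zero]
    · rw [Matrix.one_apply_ne hij, Matrix.one_apply_ne hij, coeff_zero]
  | succ m ih =>
    ext1 i j
    have h1 := congrArg (fun W : Matrix κ κ (Polynomial B) => (W i j).coeff (m + 1)) h0
    simp only [Matrix.add_apply, coeff_add] at h1
    have h2 : ((N.map (fun b => C b * X) * V : Matrix κ κ (Polynomial B)) i j).coeff (m + 1) =
        (N * V.map (fun p => p.coeff m)) i j := by
      rw [Matrix.mul_apply, Matrix.mul_apply, finsetSum_coeff]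
      refine Finset.sum_congr rfl fun l _ => ?_
      rw [Matrix.map_apply, Matrix.map_apply, mul_assoc, coeff_C_mul, coeff_X_mul]
    have h3 : ((1 : Matrix κ κ (Polynomial B)) i j).coeff (m + 1) = 0 := by
      by_cases hij : i = j
      · subst hij
        rw [Matrix.one_apply_eq, coeff_one, if_neg (by omega)]
      · rw [Matrix.one_apply_ne hij, coeff_zero]
    rw [h2, h3, ih] at h1
    rw [Matrix.map_apply, eq_neg_of_add_eq_zero_left h1, pow_succ', neg_mul, Matrix.neg_apply]

end

theorem hig : HigStatement.{u} := by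
  intro B _ M _ χ ι _ _ β hβ
  obtain ⟨D, hD⟩ : ∃ D : ℕ, ∀ i j, (β i j).natDegree ≤ D + 1 := by
    refine ⟨Finset.univ.sup fun i => Finset.univ.sup fun j => (β i j).natDegree, fun i j => ?_⟩
    have h1 : (β i j).natDegree ≤ Finset.univ.sup fun j => (β i j).natDegree :=
      Finset.le_sup (f := fun j => (β i j).natDegree) (Finset.mem_univ j)
    have h2 : (Finset.univ.sup fun j => (β i j).natDegree) ≤
        Finset.univ.sup fun i => Finset.univ.sup fun j => (β i j).natDegree :=
      Finset.le_sup (f := fun i => Finset.univ.sup fun j => (β i j).natDegree) (Finset.mem_univ i)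
    omega
  obtain ⟨κ, f1, f2, A, hA, hA1, hA2⟩ := hig_aux χ D ι β hβ hD
  obtain ⟨W, hW1, hW2⟩ := exists_inv hA
  set a : Matrix κ κ B := A.map (fun p => p.coeff 0) with ha
  set a' : Matrix κ κ B := W.map (fun p => p.coeff 0) with ha'
  set a₁ : Matrix κ κ B := A.map (fun p => p.coeff 1) with ha₁
  have hmap : ∀ P Q : Matrix κ κ (Polynomial B), P * Q = 1 →
      P.map (fun p => p.coeff 0) * Q.map (fun p => p.coeff 0) = 1 := by
    intro P Q hPQ
    have h1 := congrArg (fun R : Matrix κ κ (Polynomial B) =>
      (Polynomial.constantCoeff (R := B)).mapMatrix R) hPQ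
    simp only [map_mul, map_one] at h1
    exact h1
  have haa' : a * a' = 1 := hmap _ _ hW1
  have ha'a : a' * a = 1 := hmap _ _ hW2
  have hAdec : A = a.map C + a₁.map (fun b => C b * X) := by
    ext1 i j
    rw [Matrix.add_apply, Matrix.map_apply, Matrix.map_apply, ha, ha₁, Matrix.map_apply,
      Matrix.map_apply]
    rw [add_comm]
    exact eq_X_add_C_of_natDegree_le_one (hA1 i j)
  have hC : ∀ P Q : Matrix κ κ B, (P * Q).map C = P.map C * Q.map C := fun P Q =>
    Matrix.map_mul
  have hCX : ∀ P Q : Matrix κ κ B, (P * Q).map (fun b => C b * X) =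
      P.map C * Q.map (fun b => C b * X) := by
    intro P Q
    ext1 i j
    rw [Matrix.map_apply, Matrix.mul_apply, Matrix.mul_apply, map_sum, Finset.sum_mul]
    refine Finset.sum_congr rfl fun l _ => ?_
    rw [Matrix.map_apply, Matrix.map_apply, C_mul, mul_assoc]
  have hone : (1 : Matrix κ κ B).map C = (1 : Matrix κ κ (Polynomial B)) :=
    Matrix.map_one _ C_0 C_1
  have e1 : a.map C * a'.map C = 1 := by rw [← hC, haa', hone]
  have e2 : a'.map C * a.map C = 1 := by rw [← hC, ha'a, hone]
  set N : Matrix κ κ B := a' * a₁ with hN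
  have e3 : 1 + N.map (fun b => C b * X) = a'.map C * A := by
    rw [hAdec, mul_add, e2, hN, hCX]
  have e4 : A = a.map C * (1 + N.map (fun b => C b * X)) := by
    rw [e3, ← mul_assoc, e1, one_mul]
  have hV1 : (1 + N.map (fun b => C b * X)) * (W * a.map C) = 1 := by
    rw [e3, mul_assoc, ← mul_assoc A, hW1, one_mul, e2]
  have hV2 : (W * a.map C) * (1 + N.map (fun b => C b * X)) = 1 := by
    rw [mul_assoc, ← e4, hW2]
  have hU := isUnit_of_mul hV1 hV2
  have hau : IsUnit a := isUnit_of_mul haa' ha'a
  have haC : IsUnit (a.map C) := isUnit_of_mul e1 e2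
  refine ⟨κ, f1, f2, a, N, hau, ?_, hU, ?_⟩
  · obtain ⟨m, hm⟩ : ∃ m : ℕ, ∀ i j, ((W * a.map C) i j).coeff m = 0 := by
      refine ⟨(Finset.univ.sup fun i => Finset.univ.sup fun j =>
        ((W * a.map C) i j).natDegree) + 1, fun i j => coeff_eq_zero_of_natDegree_lt ?_⟩
      have h1 : ((W * a.map C) i j).natDegree ≤
          Finset.univ.sup fun j => ((W * a.map C) i j).natDegree :=
        Finset.le_sup (f := fun j => ((W * a.map C) i j).natDegree) (Finset.mem_univ j)
      have h2 : (Finset.univ.sup fun j => ((W * a.map C) i j).natDegree) ≤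
          Finset.univ.sup fun i => Finset.univ.sup fun j => ((W * a.map C) i j).natDegree :=
        Finset.le_sup (f := fun i => Finset.univ.sup fun j => ((W * a.map C) i j).natDegree)
          (Finset.mem_univ i)
      omega
    have h1 := coeff_inv hV1 m
    have h2 : (W * a.map C).map (fun p => p.coeff m) = 0 := by
      ext1 i j
      exact hm i j
    rw [h2] at h1
    refine ⟨m, ?_⟩
    have h3 : N ^ m = (-1) ^ m * (-N) ^ m := by
      rw [← (Commute.neg_one_left (-N)).mul_pow]
      rw [neg_mul, one_mul, neg_neg]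
    rw [h3, ← h1, mul_zero]
  · rw [← hA2]
    conv_lhs => rw [e4]
    exact χ.mul _ _ haC hU

end Pool.Agent.NegK.TW.H75
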