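import Pool.Agent.Lib.MP_28303a_al.TW.Lemmas

/-! # HT: half trees -/

set_option autoImplicit false
set_option linter.unusedSectionVars false
set_option linter.unusedVariables false

namespace Pool.Agent.NegK.TW.H75

universe u

open Matrix MonoidAlgebra

section

variable {k Γ V E : Type u} [Ring k] [Group Γ] [MulAction Γ V] [MulAction Γ E]
  (T : OTree Γ V E) {JE JF JX : Type} [Fintype JE] [DecidableEq JE] [Fintype JF] [DecidableEq JF]
  [Fintype JX] [DecidableEq JX] {dE : JE → E} {dF : JF → V} {dX : JX → V}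
  {δ : Matrix JE JX (MonoidAlgebra k Γ)} {w : Matrix JF JX (MonoidAlgebra k Γ)}
  {q : Matrix JX JE (MonoidAlgebra k Γ)} {r : Matrix JX JF (MonoidAlgebra k Γ)}

theorem inv_t : Invar Γ (fun (e : E) (v : V) => v = T.t e) := fun g e v h => by
  show g • v = T.t (g • e)
  rw [T.t_smul, ← show v = T.t e from h]

theorem inv_o : Invar Γ (fun (e : E) (v : V) => v = T.o e) := fun g e v h => by
  show g • v = T.o (g • e)
  rw [T.o_smul, ← show v = T.o e from h]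

theorem inv_ot : Invar Γ (fun (e : E) (v : V) => v = T.o e ∨ v = T.t e) := fun g e v h =>
  h.imp (inv_o T g e v) (inv_t T g e v)

theorem o_ne_t (e : E) : T.o e ≠ T.t e := fun h => T.o_notMem e (h ▸ T.t_mem e)

theorem vecMul_dT {e : E} {x : JE → MonoidAlgebra k Γ} (hx : Spt dE {e} x) :
    x ᵥ* T.dT dE dX δ = res dX {T.t e} (x ᵥ* δ) := vecMul_part (inv_t T) δ hx

theorem vecMul_dO {e : E} {x : JE → MonoidAlgebra k Γ} (hx : Spt dE {e} x) :
    x ᵥ* T.dO dE dX δ = res dX {T.o e} (x ᵥ* δ) := vecMul_part (inv_o T) δ hx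

theorem spt_dT {e : E} {x : JE → MonoidAlgebra k Γ} (hx : Spt dE {e} x) :
    Spt dX {T.t e} (x ᵥ* T.dT dE dX δ) := by
  rw [vecMul_dT T hx]; exact spt_res _ _ _

theorem spt_dO {e : E} {x : JE → MonoidAlgebra k Γ} (hx : Spt dE {e} x) :
    Spt dX {T.o e} (x ᵥ* T.dO dE dX δ) := by
  rw [vecMul_dO T hx]; exact spt_res _ _ _

variable {T}

theorem spt_δ (h : TLin T dE dF dX δ w q r) {S : Set E} {S' : Set V}
    (hS : ∀ e ∈ S, T.o e ∈ S' ∧ T.t e ∈ S') {x : JE → MonoidAlgebra k Γ} (hx : Spt dE S x) :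
    Spt dX S' (x ᵥ* δ) :=
  Sup.spt (inv_ot T) h.sδ (fun e he v hv => hv.elim (fun h1 => h1 ▸ (hS e he).1)
    (fun h1 => h1 ▸ (hS e he).2)) hx

/-- `δ = δ_t + δ_o`. -/
theorem dT_add_dO (h : TLin T dE dF dX δ w q r) :
    T.dT dE dX δ + T.dO dE dX δ = δ := by
  refine ext_hom dE fun e x hx => ?_
  rw [Matrix.vecMul_add, vecMul_dT T hx, vecMul_dO T hx]
  have h1 : Spt dX ({T.t e} ∪ {T.o e} : Set V) (x ᵥ* δ) :=
    spt_δ h (S := {e}) (fun e' he' => by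
      rw [Set.mem_singleton_iff.1 he']
      exact ⟨Or.inr rfl, Or.inl rfl⟩) hx
  rw [← res_union (fun d hd hd' => o_ne_t T e (by
    rw [← Set.mem_singleton_iff.1 hd, ← Set.mem_singleton_iff.1 hd']; )), h1.res_eq]

theorem vecMul_dT_add (h : TLin T dE dF dX δ w q r) (x : JE → MonoidAlgebra k Γ) :
    x ᵥ* T.dT dE dX δ + x ᵥ* T.dO dE dX δ = x ᵥ* δ := by
  rw [← Matrix.vecMul_add, dT_add_dO h]

theorem vecMul_pE {e : E} {x : JE → MonoidAlgebra k Γ} (hx : Spt dE {e} x) :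
    x ᵥ* T.pE dE dX δ q = res dE {e} (x ᵥ* T.dT dE dX δ ᵥ* q) := by
  have h1 : x ᵥ* T.pE dE dX δ q = res dE {e' | e = e'} (x ᵥ* (T.dT dE dX δ * q)) :=
    vecMul_part invar_eq _ hx
  have h2 : {e' : E | e = e'} = {e} := by
    ext e'
    exact ⟨fun h => h.symm, fun h => h.symm⟩
  rw [h1, h2, Matrix.vecMul_vecMul]

/-- The edges on the side of the terminus. -/
def ein (T : OTree Γ V E) (e : E) : Set E := {e' | e' ≠ e ∧ T.t e' ∈ T.H e}

/-- The edges on the side of the origin. -/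
def eout (T : OTree Γ V E) (e : E) : Set E := {e' | e' ≠ e ∧ T.t e' ∉ T.H e}

theorem decomp (e : E) (z : JE → MonoidAlgebra k Γ) :
    z = res dE {e} z + res dE (ein T e) z + res dE (eout T e) z := by
  have h1 : ({e}ᶜ : Set E) = ein T e ∪ eout T e := by
    ext e'
    constructor
    · intro he
      by_cases ht : T.t e' ∈ T.H e
      · exact Or.inl ⟨he, ht⟩
      · exact Or.inr ⟨he, ht⟩
    · rintro (he | he)
      · exact he.1
      · exact he.1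
  have h2 := res_compl dE {e} z
  rw [h1, res_union (fun d hd hd' => hd'.2 hd.2)] at h2
  rw [add_assoc]
  exact h2.symm

/-- The main computation. -/
theorem split (h : TLin T dE dF dX δ w q r) (e : E) (y : JX → MonoidAlgebra k Γ) :
    ∃ p p' : JX → MonoidAlgebra k Γ, Spt dX (T.H e) p ∧ Spt dX (T.H e)ᶜ p' ∧ y = p + p' ∧
      p = res dE {e} (y ᵥ* q) ᵥ* T.dT dE dX δ + res dE (ein T e) (y ᵥ* q) ᵥ* δ +
        res dF (T.H e) (y ᵥ* r) ᵥ* w ∧
      p' = res dE {e} (y ᵥ* q) ᵥ* T.dO dE dX δ + res dE (eout T e) (y ᵥ* q) ᵥ* δ +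
        res dF (T.H e)ᶜ (y ᵥ* r) ᵥ* w := by
  refine ⟨_, _, ?_, ?_, ?_, rfl, rfl⟩
  · refine ((Spt.mono ?_ (spt_dT T (spt_res dE {e} _))).add
      (spt_δ h ?_ (spt_res dE (ein T e) _))).add (h.sw.spt (spt_res dF _ _))
    · intro v hv
      rw [Set.mem_singleton_iff.1 hv]
      exact T.t_mem e
    · intro e' he'
      exact ⟨(T.cross e e' he'.1).2 he'.2, he'.2⟩
  · refine ((Spt.mono ?_ (spt_dO T (spt_res dE {e} _))).add
      (spt_δ h ?_ (spt_res dE (eout T e) _))).add (h.sw.spt (spt_res dF _ _))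
    · intro v hv
      rw [Set.mem_singleton_iff.1 hv]
      exact T.o_notMem e
    · intro e' he'
      exact ⟨fun hc => he'.2 ((T.cross e e' he'.1).1 hc), he'.2⟩
  · have h1 : y = (y ᵥ* q) ᵥ* δ + (y ᵥ* r) ᵥ* w := by
      rw [Matrix.vecMul_vecMul, Matrix.vecMul_vecMul, ← Matrix.vecMul_add, h.qδ,
        Matrix.vecMul_one]
    have h2 := decomp (T := T) (dE := dE) e (y ᵥ* q)
    have h3 := res_compl dF (T.H e) (y ᵥ* r)
    have h4 := vecMul_dT_add h (res dE {e} (y ᵥ* q))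
    conv_lhs => rw [h1, h2, ← h3]
    rw [Matrix.add_vecMul, Matrix.add_vecMul, Matrix.add_vecMul, ← h4]
    abel

/-- `y` with degrees in the half tree. -/
theorem core_in (h : TLin T dE dF dX δ w q r) {e : E} {y : JX → MonoidAlgebra k Γ}
    (hy : Spt dX (T.H e) y) :
    res dE {e} (y ᵥ* q) ᵥ* T.dT dE dX δ ᵥ* q =
      res dE {e} (y ᵥ* q) + res dE (eout T e) (y ᵥ* q) ∧
    res dE {e} (y ᵥ* q) ᵥ* T.dT dE dX δ ᵥ* r = res dF (T.H e)ᶜ (y ᵥ* r) := by
  obtain ⟨p, p', hp, hp', hyp, -, ep'⟩ := split h e y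
  have h0 : p' = 0 := by
    have h1 : p' = y - p := by rw [hyp]; abel
    refine hp'.eq_zero (S' := T.H e) ?_ (fun d hd hd' => hd hd')
    rw [h1]
    exact hy.sub hp
  set a := res dE {e} (y ᵥ* q) with ha
  set c := res dE (eout T e) (y ᵥ* q) with hc
  set g := res dF (T.H e)ᶜ (y ᵥ* r) with hg
  have h2 : a ᵥ* T.dT dE dX δ = (a + c) ᵥ* δ + g ᵥ* w := by
    have h3 := vecMul_dT_add h a
    rw [h0] at ep'
    rw [Matrix.add_vecMul, ← h3]
    have : a ᵥ* T.dO dE dX δ + c ᵥ* δ + g ᵥ* w = 0 := ep'.symm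
    calc a ᵥ* T.dT dE dX δ = a ᵥ* T.dT dE dX δ + (a ᵥ* T.dO dE dX δ + c ᵥ* δ + g ᵥ* w) := by
          rw [this, add_zero]
      _ = _ := by abel
  constructor
  · rw [h2, Matrix.add_vecMul, Matrix.vecMul_vecMul, Matrix.vecMul_vecMul, h.δq, h.wq,
      Matrix.vecMul_one, Matrix.vecMul_zero, add_zero]
  · rw [h2, Matrix.add_vecMul, Matrix.vecMul_vecMul, Matrix.vecMul_vecMul, h.δr, h.wr,
      Matrix.vecMul_one, Matrix.vecMul_zero, zero_add]

/-- `y` with degrees outside the half tree. -/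
theorem core_out (h : TLin T dE dF dX δ w q r) {e : E} {y : JX → MonoidAlgebra k Γ}
    (hy : Spt dX (T.H e)ᶜ y) :
    res dE {e} (y ᵥ* q) ᵥ* T.dT dE dX δ ᵥ* q = -res dE (ein T e) (y ᵥ* q) ∧
    res dE {e} (y ᵥ* q) ᵥ* T.dT dE dX δ ᵥ* r = -res dF (T.H e) (y ᵥ* r) := by
  obtain ⟨p, p', hp, hp', hyp, ep, -⟩ := split h e y
  have h0 : p = 0 := by
    have h1 : p = y - p' := by rw [hyp]; abel
    refine hp.eq_zero (S' := (T.H e)ᶜ) ?_ (fun d hd hd' => hd' hd)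
    rw [h1]
    exact hy.sub hp'
  set a := res dE {e} (y ᵥ* q) with ha
  set b := res dE (ein T e) (y ᵥ* q) with hb
  set f := res dF (T.H e) (y ᵥ* r) with hf
  have h2 : a ᵥ* T.dT dE dX δ = (-b) ᵥ* δ + (-f) ᵥ* w := by
    rw [h0] at ep
    rw [Matrix.neg_vecMul, Matrix.neg_vecMul]
    have : a ᵥ* T.dT dE dX δ + b ᵥ* δ + f ᵥ* w = 0 := ep.symm
    calc a ᵥ* T.dT dE dX δ = (a ᵥ* T.dT dE dX δ + b ᵥ* δ + f ᵥ* w) + (-(b ᵥ* δ) + -(f ᵥ* w)) := by
          abel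
      _ = _ := by rw [this, zero_add]
  constructor
  · rw [h2, Matrix.add_vecMul, Matrix.vecMul_vecMul, Matrix.vecMul_vecMul, h.δq, h.wq,
      Matrix.vecMul_one, Matrix.vecMul_zero, add_zero]
  · rw [h2, Matrix.add_vecMul, Matrix.vecMul_vecMul, Matrix.vecMul_vecMul, h.δr, h.wr,
      Matrix.vecMul_one, Matrix.vecMul_zero, zero_add]

theorem not_mem_eout (e : E) : e ∉ eout T e := fun h => h.1 rfl

theorem not_mem_ein (e : E) : e ∉ ein T e := fun h => h.1 rfl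

theorem f2 (h : TLin T dE dF dX δ w q r) {e : E} {y : JX → MonoidAlgebra k Γ}
    (hy : Spt dX (T.H e) y) :
    res dE {e} (y ᵥ* q) ᵥ* T.pE dE dX δ q = res dE {e} (y ᵥ* q) := by
  rw [vecMul_pE (spt_res dE {e} _), (core_in h hy).1, map_add, (spt_res dE {e} _).res_eq,
    (spt_res dE (eout T e) _).res_eq_zero, add_zero]
  intro d hd hd'
  rw [Set.mem_singleton_iff.1 hd'] at hd
  exact not_mem_eout e hd

theorem f2' (h : TLin T dE dF dX δ w q r) {e : E} {y : JX → MonoidAlgebra k Γ}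
    (hy : Spt dX (T.H e)ᶜ y) :
    res dE {e} (y ᵥ* q) ᵥ* T.pE dE dX δ q = 0 := by
  rw [vecMul_pE (spt_res dE {e} _), (core_out h hy).1, map_neg,
    (spt_res dE (ein T e) _).res_eq_zero, neg_zero]
  intro d hd hd'
  rw [Set.mem_singleton_iff.1 hd'] at hd
  exact not_mem_ein e hd

theorem spt_dT_H {e : E} {x : JE → MonoidAlgebra k Γ} (hx : Spt dE {e} x) :
    Spt dX (T.H e) (x ᵥ* T.dT dE dX δ) := by
  refine Spt.mono ?_ (spt_dT T hx)
  intro v hv
  rw [Set.mem_singleton_iff.1 hv]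
  exact T.t_mem e

theorem pE_pE (h : TLin T dE dF dX δ w q r) :
    T.pE dE dX δ q * T.pE dE dX δ q = T.pE dE dX δ q := by
  refine ext_hom dE fun e x hx => ?_
  rw [← Matrix.vecMul_vecMul, vecMul_pE hx]
  exact f2 h (spt_dT_H hx)

theorem f3 (h : TLin T dE dF dX δ w q r) {e : E} {x : JE → MonoidAlgebra k Γ}
    (hx : Spt dE {e} x) (hπ : x ᵥ* T.pE dE dX δ q = x) :
    Spt dE (eout T e) (x ᵥ* T.dO dE dX δ ᵥ* q) ∧ Spt dF (T.H e)ᶜ (x ᵥ* T.dO dE dX δ ᵥ* r) := by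
  have h1 := core_in h (spt_dT_H (T := T) (δ := δ) (dX := dX) hx)
  rw [← vecMul_pE hx, hπ] at h1
  have h2 := vecMul_dT_add h x
  have h3 : x ᵥ* T.dO dE dX δ = x ᵥ* δ - x ᵥ* T.dT dE dX δ := by rw [← h2]; abel
  constructor
  · have e0 : res dE (eout T e) (x ᵥ* T.dT dE dX δ ᵥ* q) = x ᵥ* T.dT dE dX δ ᵥ* q - x := by
      conv_rhs => rw [h1.1]
      abel
    have e1 : x ᵥ* T.dO dE dX δ ᵥ* q =
        -res dE (eout T e) (x ᵥ* T.dT dE dX δ ᵥ* q) := by
      rw [h3, Matrix.sub_vecMul, Matrix.vecMul_vecMul x δ q, h.δq, Matrix.vecMul_one, e0]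
      abel
    rw [e1]
    exact (spt_res _ _ _).neg
  · have e1 : x ᵥ* T.dO dE dX δ ᵥ* r =
        -res dF (T.H e)ᶜ (x ᵥ* T.dT dE dX δ ᵥ* r) := by
      rw [← h1.2, h3, Matrix.sub_vecMul, Matrix.vecMul_vecMul x δ r, h.δr, Matrix.vecMul_zero,
        zero_sub]
    rw [e1]
    exact (spt_res _ _ _).neg

theorem f3' (h : TLin T dE dF dX δ w q r) {e : E} {x : JE → MonoidAlgebra k Γ}
    (hx : Spt dE {e} x) (hπ : x ᵥ* T.pE dE dX δ q = 0) :
    Spt dE (ein T e) (x ᵥ* T.dT dE dX δ ᵥ* q) ∧ Spt dF (T.H e) (x ᵥ* T.dT dE dX δ ᵥ* r) := by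
  have h1 := core_in h (spt_dT_H (T := T) (δ := δ) (dX := dX) hx)
  rw [← vecMul_pE hx, hπ, Matrix.zero_vecMul, Matrix.zero_vecMul, Matrix.zero_vecMul,
    zero_add] at h1
  constructor
  · have h2 := decomp (T := T) (dE := dE) e (x ᵥ* T.dT dE dX δ ᵥ* q)
    rw [← vecMul_pE hx, hπ, ← h1.1, zero_add, add_zero] at h2
    rw [h2]
    exact spt_res _ _ _
  · have h2 := res_compl dF (T.H e) (x ᵥ* T.dT dE dX δ ᵥ* r)
    rw [← h1.2, add_zero] at h2
    rw [← h2]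
    exact spt_res _ _ _

end

theorem ht : HtStatement.{u} := by
  intro k Γ V E _ _ _ _ T JE JF JX _ _ _ _ _ _ dE dF dX δ w q r h
  exact ⟨pE_pE h, fun e y hy => f2 h hy, fun e y hy => f2' h hy,
    fun e x hx hπ => f3 h hx hπ, fun e x hx hπ => f3' h hx hπ⟩

end Pool.Agent.NegK.TW.H75
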