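import Pool.Agent.Lib.MP_28303a_al.TW.H75.Nus

/-! # LAM: `[δ♯; w]` is inverse to `[q_t + q_o, r]` -/

set_option autoImplicit false
set_option linter.unusedSectionVars false
set_option linter.unusedVariables false

namespace Pool.Agent.NegK.TW.H75

universe u

open Matrix MonoidAlgebra

section

variable {k Γ V E : Type u} [Ring k] [Group Γ] [MulAction Γ V] [MulAction Γ E]
  {T : OTree Γ V E} {JE JF JX : Type} [Fintype JE] [DecidableEq JE] [Fintype JF] [DecidableEq JF]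
  [Fintype JX] [DecidableEq JX] {dE : JE → E} {dF : JF → V} {dX : JX → V}
  {δ : Matrix JE JX (MonoidAlgebra k Γ)} {w : Matrix JF JX (MonoidAlgebra k Γ)}
  {q : Matrix JX JE (MonoidAlgebra k Γ)} {r : Matrix JX JF (MonoidAlgebra k Γ)}

theorem vecMul_rG {v : V} {y : JX → MonoidAlgebra k Γ} (hy : Spt dX {v} y) :
    y ᵥ* rG dF dX r = res dF {v} (y ᵥ* r) := by
  have h1 : y ᵥ* rG dF dX r = res dF {v' | v = v'} (y ᵥ* r) := vecMul_part invar_eq _ hy
  have h2 : {v' : V | v = v'} = {v} := by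
    ext v'
    exact ⟨fun h => h.symm, fun h => h.symm⟩
  rw [h1, h2]

/-- The part of degree `v` of `z δ_t`. -/
theorem res_dT (v : V) (z : JE → MonoidAlgebra k Γ) :
    res dX {v} (z ᵥ* T.dT dE dX δ) = res dE {e | v = T.t e} z ᵥ* T.dT dE dX δ := by
  have h1 : Spt dX {v} (res dE {e | v = T.t e} z ᵥ* T.dT dE dX δ) :=
    Sup.spt (inv_t T) (sup_part _ _ _ _) (fun e he v' hv' => by
      rw [Set.mem_singleton_iff, hv']; exact (show v = T.t e from he).symm) (spt_res _ _ _)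
  have h2 : Spt dX {v}ᶜ (res dE {e | v = T.t e}ᶜ z ᵥ* T.dT dE dX δ) :=
    Sup.spt (inv_t T) (sup_part _ _ _ _) (fun e he v' hv' => by
      intro hc; rw [Set.mem_singleton_iff.1 hc] at hv'; exact he hv') (spt_res _ _ _)
  conv_lhs => rw [← res_compl dE {e | v = T.t e} z, Matrix.add_vecMul, map_add, h1.res_eq,
    res_eq_zero_iff.2 h2, add_zero]

theorem res_dO (v : V) (z : JE → MonoidAlgebra k Γ) :
    res dX {v} (z ᵥ* T.dO dE dX δ) = res dE {e | v = T.o e} z ᵥ* T.dO dE dX δ := by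
  have h1 : Spt dX {v} (res dE {e | v = T.o e} z ᵥ* T.dO dE dX δ) :=
    Sup.spt (inv_o T) (sup_part _ _ _ _) (fun e he v' hv' => by
      rw [Set.mem_singleton_iff, hv']; exact (show v = T.o e from he).symm) (spt_res _ _ _)
  have h2 : Spt dX {v}ᶜ (res dE {e | v = T.o e}ᶜ z ᵥ* T.dO dE dX δ) :=
    Sup.spt (inv_o T) (sup_part _ _ _ _) (fun e he v' hv' => by
      intro hc; rw [Set.mem_singleton_iff.1 hc] at hv'; exact he hv') (spt_res _ _ _)
  conv_lhs => rw [← res_compl dE {e | v = T.o e} z, Matrix.add_vecMul, map_add, h1.res_eq,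
    res_eq_zero_iff.2 h2, add_zero]

theorem res_sing {S : Set E} {e : E} (he : e ∈ S) (z : JE → MonoidAlgebra k Γ) :
    res dE {e} (res dE S z) = res dE {e} z := by
  rw [res_res, Set.inter_eq_left.2 (Set.singleton_subset_iff.2 he)]

theorem res_sing' {S : Set E} {e : E} (he : e ∉ S) (z : JE → MonoidAlgebra k Γ) :
    res dE {e} (res dE S z) = 0 := by
  rw [res_res, show ({e} ∩ S : Set E) = ∅ from ?_, res_empty]
  rw [Set.singleton_inter_eq_empty]
  exact he

/-- `q_t π = q_t`. -/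
theorem qT_pE (h : TLin T dE dF dX δ w q r) :
    T.qT dE dX q * T.pE dE dX δ q = T.qT dE dX q := by
  refine ext_hom dX fun v y hy => ?_
  rw [← Matrix.vecMul_vecMul, vecMul_qT hy]
  refine eq_of_res (dg := dE) fun e => ?_
  rw [Grd.res_vecMul grd_pE]
  by_cases he : e ∈ {e | v = T.t e}
  · rw [res_sing he]
    refine f2 h (Spt.mono ?_ hy)
    intro v' hv'
    rw [Set.mem_singleton_iff.1 hv', show v = T.t e from he]
    exact T.t_mem e
  · rw [res_sing' he, Matrix.zero_vecMul]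

/-- `q_o π = 0`. -/
theorem qO_pE (h : TLin T dE dF dX δ w q r) :
    T.qO dE dX q * T.pE dE dX δ q = 0 := by
  refine ext_hom dX fun v y hy => ?_
  rw [← Matrix.vecMul_vecMul, vecMul_qO hy, Matrix.vecMul_zero]
  refine eq_of_res (dg := dE) fun e => ?_
  rw [Grd.res_vecMul grd_pE, map_zero]
  by_cases he : e ∈ {e | v = T.o e}
  · rw [res_sing he]
    refine f2' h (Spt.mono ?_ hy)
    intro v' hv'
    rw [Set.mem_singleton_iff.1 hv', show v = T.o e from he]
    exact T.o_notMem e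
  · rw [res_sing' he, Matrix.zero_vecMul]

/-- The case `x π = x`. -/
theorem case_one (h : TLin T dE dF dX δ w q r) {e : E} {x : JE → MonoidAlgebra k Γ}
    (hx : Spt dE {e} x) (hπ : x ᵥ* T.pE dE dX δ q = x) :
    x ᵥ* T.dT dE dX δ ᵥ* (T.qT dE dX q + T.qO dE dX q) = x ∧
    x ᵥ* T.dT dE dX δ ᵥ* rG dF dX r = 0 := by
  have hy : Spt dX {T.t e} (x ᵥ* T.dT dE dX δ) := spt_dT T hx
  have hc := core_in h (spt_dT_H (T := T) (δ := δ) (dX := dX) hx)
  rw [← vecMul_pE hx, hπ] at hc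
  obtain ⟨c1, c2⟩ := hc
  set c := res dE (eout T e) (x ᵥ* T.dT dE dX δ ᵥ* q) with hcdef
  have hcs : Spt dE (eout T e) c := spt_res _ _ _
  constructor
  · rw [Matrix.vecMul_add, vecMul_qT hy, vecMul_qO hy, c1, map_add, map_add]
    have g1 : res dE {e' | T.t e = T.t e'} x = x :=
      (Spt.mono (fun e' he' => by rw [Set.mem_singleton_iff.1 he']; rfl) hx).res_eq
    have g2 : res dE {e' | T.t e = T.t e'} c = 0 :=
      hcs.res_eq_zero fun d hd hd' => hd.2 (by
        rw [← show T.t e = T.t d from hd']; exact T.t_mem e)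
    have g3 : res dE {e' | T.t e = T.o e'} x = 0 :=
      hx.res_eq_zero fun d hd hd' => by
        rw [Set.mem_singleton_iff.1 hd] at hd'
        exact o_ne_t T e (show T.t e = T.o e from hd').symm
    have g4 : res dE {e' | T.t e = T.o e'} c = 0 :=
      hcs.res_eq_zero fun d hd hd' => hd.2 ((T.cross e d hd.1).1 (by
        rw [← show T.t e = T.o d from hd']; exact T.t_mem e))
    rw [g1, g2, g3, g4, add_zero, add_zero, add_zero]
  · rw [vecMul_rG hy, c2]
    refine (spt_res dF _ _).res_eq_zero fun d hd hd' => hd ?_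
    rw [Set.mem_singleton_iff.1 hd']
    exact T.t_mem e

/-- The case `x π = 0`. -/
theorem case_zero (h : TLin T dE dF dX δ w q r) {e : E} {x : JE → MonoidAlgebra k Γ}
    (hx : Spt dE {e} x) (hπ : x ᵥ* T.pE dE dX δ q = 0) :
    x ᵥ* T.dO dE dX δ ᵥ* (T.qT dE dX q + T.qO dE dX q) = x ∧
    x ᵥ* T.dO dE dX δ ᵥ* rG dF dX r = 0 := by
  have hy : Spt dX {T.o e} (x ᵥ* T.dO dE dX δ) := spt_dO T hx
  obtain ⟨c1, c2⟩ := f3' h hx hπ
  have h3 : x ᵥ* T.dO dE dX δ = x ᵥ* δ - x ᵥ* T.dT dE dX δ := by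
    rw [← vecMul_dT_add h x]; abel
  have e1 : x ᵥ* T.dO dE dX δ ᵥ* q = x - x ᵥ* T.dT dE dX δ ᵥ* q := by
    rw [h3, Matrix.sub_vecMul, Matrix.vecMul_vecMul x δ q, h.δq, Matrix.vecMul_one]
  have e2 : x ᵥ* T.dO dE dX δ ᵥ* r = -(x ᵥ* T.dT dE dX δ ᵥ* r) := by
    rw [h3, Matrix.sub_vecMul, Matrix.vecMul_vecMul x δ r, h.δr, Matrix.vecMul_zero, zero_sub]
  constructor
  · rw [Matrix.vecMul_add, vecMul_qT hy, vecMul_qO hy, e1, map_sub, map_sub]
    have g1 : res dE {e' | T.o e = T.t e'} x = 0 :=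
      hx.res_eq_zero fun d hd hd' => by
        rw [Set.mem_singleton_iff.1 hd] at hd'
        exact o_ne_t T e (show T.o e = T.t e from hd')
    have g2 : res dE {e' | T.o e = T.t e'} (x ᵥ* T.dT dE dX δ ᵥ* q) = 0 :=
      c1.res_eq_zero fun d hd hd' => T.o_notMem e (by
        rw [show T.o e = T.t d from hd']; exact hd.2)
    have g3 : res dE {e' | T.o e = T.o e'} x = x :=
      (Spt.mono (fun e' he' => by rw [Set.mem_singleton_iff.1 he']; rfl) hx).res_eq
    have g4 : res dE {e' | T.o e = T.o e'} (x ᵥ* T.dT dE dX δ ᵥ* q) = 0 :=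
      c1.res_eq_zero fun d hd hd' => T.o_notMem e (by
        rw [show T.o e = T.o d from hd']; exact (T.cross e d hd.1).2 hd.2)
    rw [g1, g2, g3, g4, sub_zero, sub_zero, zero_add]
  · rw [vecMul_rG hy, e2, map_neg]
    rw [c2.res_eq_zero, neg_zero]
    intro d hd hd'
    rw [Set.mem_singleton_iff.1 hd'] at hd
    exact T.o_notMem e hd

theorem vecMul_ds (x : JE → MonoidAlgebra k Γ) :
    x ᵥ* T.ds dE dX δ q = x ᵥ* T.pE dE dX δ q ᵥ* T.dT dE dX δ +
      x ᵥ* (1 - T.pE dE dX δ q) ᵥ* T.dO dE dX δ := by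
  unfold OTree.ds
  rw [Matrix.vecMul_add, Matrix.vecMul_vecMul, Matrix.vecMul_vecMul]

end

theorem lam (_ : HtStatement.{u}) : LamStatement.{u} := by
  intro k Γ V E _ _ _ _ T JE JF JX _ _ _ _ _ _ dE dF dX δ w q r h
  have hsum : ∀ x : JE → MonoidAlgebra k Γ,
      x ᵥ* T.pE dE dX δ q + x ᵥ* (1 - T.pE dE dX δ q) = x := fun x => by
    rw [← Matrix.vecMul_add, add_sub_cancel, Matrix.vecMul_one]
  have l7 := qT_pE h
  have l8 := qO_pE h
  refine ⟨dT_add_dO h, ?_, ?_, ?_, ?_, ?_, l7, l8⟩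
  · refine ext_hom dE fun e x hx => ?_
    rw [← Matrix.vecMul_vecMul, vecMul_ds, Matrix.add_vecMul, Matrix.vecMul_one,
      (case_one h (spt_pE hx) (pE_of h x)).1, (case_zero h (spt_compl hx) (pE_compl h x)).1,
      hsum]
  · refine ext_hom dE fun e x hx => ?_
    rw [← Matrix.vecMul_vecMul, vecMul_ds, Matrix.add_vecMul, Matrix.vecMul_zero,
      (case_one h (spt_pE hx) (pE_of h x)).2, (case_zero h (spt_compl hx) (pE_compl h x)).2,
      add_zero]
  · refine ext_hom dF fun v x hx => ?_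
    have hy : Spt dX {v} (x ᵥ* w) := h.sw.spt hx
    rw [← Matrix.vecMul_vecMul, Matrix.vecMul_zero, Matrix.vecMul_add, vecMul_qT hy, vecMul_qO hy,
      Matrix.vecMul_vecMul, h.wq, Matrix.vecMul_zero, map_zero, map_zero, add_zero]
  · refine ext_hom dF fun v x hx => ?_
    have hy : Spt dX {v} (x ᵥ* w) := h.sw.spt hx
    rw [← Matrix.vecMul_vecMul, vecMul_rG hy, Matrix.vecMul_vecMul, h.wr, Matrix.vecMul_one,
      hx.res_eq]
  · have e1 : (T.qT dE dX q + T.qO dE dX q) * T.ds dE dX δ q =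
        T.qT dE dX q * T.dT dE dX δ + T.qO dE dX q * T.dO dE dX δ := by
      unfold OTree.ds
      rw [Matrix.add_mul, Matrix.mul_add, Matrix.mul_add, ← Matrix.mul_assoc, ← Matrix.mul_assoc,
        ← Matrix.mul_assoc, ← Matrix.mul_assoc, Matrix.mul_sub, Matrix.mul_sub, l7, l8,
        Matrix.mul_one, Matrix.mul_one, sub_self, sub_zero, Matrix.zero_mul, Matrix.zero_mul,
        add_zero, zero_add]
    rw [e1]
    refine ext_hom dX fun v y hy => ?_
    rw [Matrix.vecMul_one, Matrix.vecMul_add, Matrix.vecMul_add, ← Matrix.vecMul_vecMul,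
      ← Matrix.vecMul_vecMul, ← Matrix.vecMul_vecMul, vecMul_qT hy, vecMul_qO hy, vecMul_rG hy,
      ← res_dT, ← res_dO, ← Grd.res_vecMul h.sw, ← map_add, vecMul_dT_add h, ← map_add,
      Matrix.vecMul_vecMul, Matrix.vecMul_vecMul, ← Matrix.vecMul_add, h.qδ, Matrix.vecMul_one,
      hy.res_eq]

end Pool.Agent.NegK.TW.H75
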