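import Pool.Agent.Lib.MP_28303a_al.TW.H75.Ht

/-! # NUS: the support of `ν` along reduced paths -/

set_option autoImplicit false
set_option linter.unusedSectionVars false
set_option linter.unusedVariables false

namespace Pool.Agent.NegK.TW.H75

universe u

open Matrix MonoidAlgebra

/-- The support of a matrix can be checked on homogeneous rows. -/
theorem sup_of_rows {k Γ D D' : Type u} [Ring k] [Group Γ] [MulAction Γ D] [MulAction Γ D']
    {J J' : Type} [Fintype J] [DecidableEq J] {dg : J → D} {dg' : J' → D'} {R : D → D' → Prop}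
    {M : Matrix J J' (MonoidAlgebra k Γ)}
    (h : ∀ (d : D) (x : J → MonoidAlgebra k Γ), Spt dg {d} x → Spt dg' {d' | R d d'} (x ᵥ* M)) :
    Sup dg dg' R M := by
  intro i j g hg
  have h1 := h (dg i) _ (spt_single dg i) j g
  rw [Matrix.single_one_vecMul] at h1
  exact h1 hg

section

variable {k Γ V E : Type u} [Ring k] [Group Γ] [MulAction Γ V] [MulAction Γ E]
  {T : OTree Γ V E} {JE JF JX : Type} [Fintype JE] [DecidableEq JE] [Fintype JF] [DecidableEq JF]
  [Fintype JX] [DecidableEq JX] {dE : JE → E} {dF : JF → V} {dX : JX → V}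
  {δ : Matrix JE JX (MonoidAlgebra k Γ)} {w : Matrix JF JX (MonoidAlgebra k Γ)}
  {q : Matrix JX JE (MonoidAlgebra k Γ)} {r : Matrix JX JF (MonoidAlgebra k Γ)}

theorem inv_qT (T : OTree Γ V E) : Invar Γ (fun (v : V) (e : E) => v = T.t e) := fun g v e h => by
  show g • v = T.t (g • e)
  rw [T.t_smul, ← show v = T.t e from h]

theorem inv_qO (T : OTree Γ V E) : Invar Γ (fun (v : V) (e : E) => v = T.o e) := fun g v e h => by
  show g • v = T.o (g • e)
  rw [T.o_smul, ← show v = T.o e from h]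

theorem vecMul_qT {v : V} {y : JX → MonoidAlgebra k Γ} (hy : Spt dX {v} y) :
    y ᵥ* T.qT dE dX q = res dE {e | v = T.t e} (y ᵥ* q) := vecMul_part (inv_qT T) q hy

theorem vecMul_qO {v : V} {y : JX → MonoidAlgebra k Γ} (hy : Spt dX {v} y) :
    y ᵥ* T.qO dE dX q = res dE {e | v = T.o e} (y ᵥ* q) := vecMul_part (inv_qO T) q hy

theorem grd_pE : Grd dE dE (T.pE dE dX δ q) := sup_part _ _ _ _

theorem spt_pE {S : Set E} {x : JE → MonoidAlgebra k Γ} (hx : Spt dE S x) :
    Spt dE S (x ᵥ* T.pE dE dX δ q) := Grd.spt grd_pE hx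

theorem pE_of (h : TLin T dE dF dX δ w q r) (x : JE → MonoidAlgebra k Γ) :
    x ᵥ* T.pE dE dX δ q ᵥ* T.pE dE dX δ q = x ᵥ* T.pE dE dX δ q := by
  rw [Matrix.vecMul_vecMul, pE_pE h]

theorem pE_compl (h : TLin T dE dF dX δ w q r) (x : JE → MonoidAlgebra k Γ) :
    x ᵥ* (1 - T.pE dE dX δ q) ᵥ* T.pE dE dX δ q = 0 := by
  rw [Matrix.vecMul_sub, Matrix.vecMul_one, Matrix.sub_vecMul, pE_of h, sub_self]

theorem spt_compl {e : E} {x : JE → MonoidAlgebra k Γ} (hx : Spt dE {e} x) :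
    Spt dE {e} (x ᵥ* (1 - T.pE dE dX δ q)) := by
  rw [Matrix.vecMul_sub, Matrix.vecMul_one]
  exact hx.sub (spt_pE hx)

end

theorem nus (_ : HtStatement.{u}) : NusStatement.{u} := by
  intro k Γ V E _ _ _ _ T JE JF JX _ _ _ _ _ _ dE dF dX δ w q r h
  have b1 : Sup dE dE (fun e e' => T.o e = T.t e')
      (T.pE dE dX δ q * T.dO dE dX δ * T.qT dE dX q) := by
    refine sup_of_rows fun e x hx => ?_
    rw [← Matrix.vecMul_vecMul, ← Matrix.vecMul_vecMul,
      vecMul_qT (spt_dO T (spt_pE (T := T) (δ := δ) (q := q) (dX := dX) hx))]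
    exact spt_res _ _ _
  have b2 : Sup dE dE (fun e e' => T.o e = T.o e' ∧ e' ≠ e)
      (T.pE dE dX δ q * T.dO dE dX δ * T.qO dE dX q) := by
    refine sup_of_rows fun e x hx => ?_
    have hx' := spt_pE (T := T) (δ := δ) (q := q) (dX := dX) hx
    rw [← Matrix.vecMul_vecMul, ← Matrix.vecMul_vecMul, vecMul_qO (spt_dO T hx')]
    have h3 := (f3 h hx' (pE_of h x)).1
    have h4 := h3.res {e' | T.o e = T.o e'}
    intro j g hg
    exact ⟨spt_res _ _ _ j g hg, (h4 j g hg).1⟩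
  have b3 : Sup dE dE (fun e e' => T.t e = T.t e' ∧ e' ≠ e)
      ((1 - T.pE dE dX δ q) * T.dT dE dX δ * T.qT dE dX q) := by
    refine sup_of_rows fun e x hx => ?_
    have hx' := spt_compl (T := T) (δ := δ) (q := q) (dX := dX) hx
    rw [← Matrix.vecMul_vecMul, ← Matrix.vecMul_vecMul, vecMul_qT (spt_dT T hx')]
    have h3 := (f3' h hx' (pE_compl h x)).1
    have h4 := h3.res {e' | T.t e = T.t e'}
    intro j g hg
    exact ⟨spt_res _ _ _ j g hg, (h4 j g hg).1⟩
  have b4 : Sup dE dE (fun e e' => T.t e = T.o e')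
      ((1 - T.pE dE dX δ q) * T.dT dE dX δ * T.qO dE dX q) := by
    refine sup_of_rows fun e x hx => ?_
    have hx' := spt_compl (T := T) (δ := δ) (q := q) (dX := dX) hx
    rw [← Matrix.vecMul_vecMul, ← Matrix.vecMul_vecMul, vecMul_qO (spt_dT T hx')]
    exact spt_res _ _ _
  refine Sup.neg (Sup.fromBlocks ?_ ?_ ?_ ?_)
  · intro i j g hg
    exact ⟨(b1 i j g hg).symm, fun hc => hc.2 rfl⟩
  · intro i j g hg
    exact ⟨(b2 i j g hg).1.symm, fun hc => (b2 i j g hg).2 hc.1⟩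
  · intro i j g hg
    exact ⟨(b3 i j g hg).1.symm, fun hc => (b3 i j g hg).2 hc.1⟩
  · intro i j g hg
    exact ⟨(b4 i j g hg).symm, fun hc => hc.2 rfl⟩

end Pool.Agent.NegK.TW.H75
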