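import Pool.Agent.Lib.MP_28303a_al.TW.Lemmas

/-! # NUD: `χ([δ; w] [q_t + q_o, r]) = χ(1 - ν)` -/

set_option autoImplicit false
set_option linter.unusedSectionVars false
set_option linter.unusedVariables false

namespace Pool.Agent.NegK.TW.H75

universe u v

open Matrix MonoidAlgebra

section

variable {A : Type u} [Ring A] {ι κ : Type} [Fintype ι] [DecidableEq ι] [Fintype κ]
  [DecidableEq κ]

/-- The diagonal block of an invertible block upper triangular matrix. -/
theorem isUnit_of_upper {X : Matrix ι ι A} {Y : Matrix ι κ A}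
    (h : IsUnit (fromBlocks X Y 0 (1 : Matrix κ κ A))) : IsUnit X := by
  obtain ⟨Z, h1, h2⟩ := exists_inv h
  rw [← Matrix.fromBlocks_toBlocks Z, Matrix.fromBlocks_multiply, ← Matrix.fromBlocks_one,
    Matrix.fromBlocks_inj] at h1 h2
  obtain ⟨a1, -, a3, -⟩ := h1
  obtain ⟨b1, -, -, -⟩ := h2
  rw [Matrix.zero_mul, Matrix.one_mul, zero_add] at a3
  rw [a3, Matrix.mul_zero, add_zero] at a1
  rw [Matrix.mul_zero, add_zero] at b1
  exact isUnit_of_mul a1 b1

theorem val_upper {M : Type v} [AddCommGroup M] (χ : Det1 A M) {X : Matrix ι ι A}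
    {Y : Matrix ι κ A} (hX : IsUnit X) :
    χ.val (fromBlocks X Y 0 (1 : Matrix κ κ A)) = χ.val X := by
  have e : fromBlocks X Y 0 (1 : Matrix κ κ A) =
      fromBlocks 1 Y 0 1 * fromBlocks X 0 0 (1 : Matrix κ κ A) := by
    rw [Matrix.fromBlocks_multiply]
    simp
  have hb : IsUnit (fromBlocks X 0 0 (1 : Matrix κ κ A)) := by
    obtain ⟨Z, h1, h2⟩ := exists_inv hX
    refine isUnit_of_mul (β := fromBlocks Z 0 0 1) ?_ ?_
    · rw [Matrix.fromBlocks_multiply, ← Matrix.fromBlocks_one]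
      simp [h1]
    · rw [Matrix.fromBlocks_multiply, ← Matrix.fromBlocks_one]
      simp [h2]
  rw [e, χ.mul _ _ (isUnit_upper Y) hb, χ.upper, zero_add, χ.val_blocks_one hX]

end

theorem nud (hlam : LamStatement.{u}) : NudStatement.{u} := by
  intro k Γ V E _ _ _ _ T JE JF JX _ _ _ _ _ _ dE dF dX δ w q r h
  obtain ⟨l1, l2, l3, l4, l5, l6, l7, l8⟩ := hlam k Γ V E T JE JF JX dE dF dX δ w q r h
  set π := T.pE dE dX δ q with hπ
  set dT := T.dT dE dX δ with hdT
  set dO := T.dO dE dX δ with hdO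
  set qT := T.qT dE dX q with hqT
  set qO := T.qO dE dX q with hqO
  set R := rG dF dX r with hR
  set ds := T.ds dE dX δ q with hds
  have eds : ds = π * dT + (1 - π) * dO := rfl
  -- the product
  have eP : fromRows δ w * fromCols (qT + qO) R = fromBlocks (δ * (qT + qO)) (δ * R) 0 1 := by
    rw [Matrix.fromRows_mul_fromCols, l4, l5]
  have hP : IsUnit (fromRows δ w * fromCols (qT + qO) R) := by
    have f1 : fromRows δ w * fromCols q r = 1 := by
      rw [Matrix.fromRows_mul_fromCols, h.δq, h.δr, h.wq, h.wr, Matrix.fromBlocks_one]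
    have f2 : fromCols q r * fromRows δ w = 1 := by
      rw [Matrix.fromCols_mul_fromRows]; exact h.qδ
    have g1 : fromRows ds w * fromCols (qT + qO) R = 1 := by
      rw [Matrix.fromRows_mul_fromCols, l2, l3, l4, l5, Matrix.fromBlocks_one]
    have g2 : fromCols (qT + qO) R * fromRows ds w = 1 := by
      rw [Matrix.fromCols_mul_fromRows]; exact l6
    refine isUnit_of_mul (β := fromRows ds w * fromCols q r) ?_ ?_
    · rw [Matrix.mul_assoc, ← Matrix.mul_assoc (fromCols (qT + qO) R), g2, Matrix.one_mul, f1]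
    · rw [Matrix.mul_assoc, ← Matrix.mul_assoc (fromCols q r), f2, Matrix.one_mul, g1]
  have hX : IsUnit (δ * (qT + qO)) := by
    rw [eP] at hP
    exact isUnit_of_upper hP
  -- `δ Q = 1 + A Q`
  have e1 : δ * (qT + qO) = 1 + ((1 - π) * dT + π * dO) * (qT + qO) := by
    have e2 : δ = ds + ((1 - π) * dT + π * dO) := by
      rw [eds, ← l1, Matrix.sub_mul, Matrix.sub_mul, Matrix.one_mul, Matrix.one_mul]
      abel
    conv_lhs => rw [e2, Matrix.add_mul, l2]
  -- `Q A`
  have e3 : (qT + qO) * ((1 - π) * dT + π * dO) =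
      fromCols qT qO * fromRows (π * dO) ((1 - π) * dT) := by
    rw [Matrix.fromCols_mul_fromRows, Matrix.add_mul, Matrix.mul_add, Matrix.mul_add,
      ← Matrix.mul_assoc, ← Matrix.mul_assoc, ← Matrix.mul_assoc, ← Matrix.mul_assoc,
      Matrix.mul_sub, Matrix.mul_sub, l7, l8, Matrix.mul_one, Matrix.mul_one, sub_self, sub_zero,
      Matrix.zero_mul, Matrix.zero_mul, add_zero, zero_add]
  have e4 : 1 - T.nu dE dX δ q = 1 + fromRows (π * dO) ((1 - π) * dT) * fromCols qT qO := by
    rw [Matrix.fromRows_mul_fromCols]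
    unfold OTree.nu
    rw [sub_neg_eq_add]
  have u1 : IsUnit (1 + ((1 - π) * dT + π * dO) * (qT + qO)) := e1 ▸ hX
  have u2 := isUnit_one_add_swap u1
  rw [e3] at u2
  have u3 := isUnit_one_add_swap u2
  refine ⟨by rw [e4]; exact u3, fun M _ χ => ⟨hP, ?_⟩⟩
  rw [eP, val_upper χ hX, e1, e4, χ.one_add_swap u2, ← e3, χ.one_add_swap u1]

end Pool.Agent.NegK.TW.H75
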